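import Pool.Agent.H357R3.HoroOrbit

/-!
# Finite orbits in the horofunction boundary of virtually abelian groups (MP_3614fc_al, Q1)
-/

set_option autoImplicit false

open Filter Topology

namespace Pool.Agent.Results.MP_3614fc_al.VirtuallyAbelian

open Pool.Agent.H357R3.HoroInv

/-- Let `G` be an infinite group with an abelian subgroup of finite index. Then for every finite
symmetric generating set `S` some horofunction of the word metric of `S` has a finite orbit. -/
theorem result :
    ∀ (G : Type) [Group G], Infinite G →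
      (∃ H : Subgroup G, H.FiniteIndex ∧ ∀ a ∈ H, ∀ b ∈ H, a * b = b * a) →
      ∀ S : Finset G, (∀ s ∈ S, s⁻¹ ∈ S) → Subgroup.closure (S : Set G) = ⊤ →
        ∃ f : G → ℝ,
          (∃ x : ℕ → G,
            Tendsto (fun n : ℕ => ((sInf {m : ℕ | ∃ l : List G, l.length = m ∧
                (∀ s ∈ l, s ∈ S) ∧ l.prod = (x n)⁻¹} : ℕ) : ℝ)) atTop atTop ∧
            ∀ y : G, Tendsto (fun n : ℕ =>
                ((sInf {m : ℕ | ∃ l : List G, l.length = m ∧
                  (∀ s ∈ l, s ∈ S) ∧ l.prod = (x n)⁻¹ * y} : ℕ) : ℝ) -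
                ((sInf {m : ℕ | ∃ l : List G, l.length = m ∧
                  (∀ s ∈ l, s ∈ S) ∧ l.prod = (x n)⁻¹} : ℕ) : ℝ))
              atTop (nhds (f y))) ∧
          (Set.range (fun g : G => fun y : G => f (g⁻¹ * y) - f g⁻¹)).Finite := by
  intro G _ hinf hV S hs hS
  have hd : ∀ z x : G, (fun z x : G => len S (z⁻¹ * x)) z x = len S (z⁻¹ * x) := fun _ _ => rfl
  have hcount := (transfer hd).1 ((countable_iff (Or.inl hV) hs hS hd).2 hV)
  exact Pool.Agent.H357R3.HoroOrbit.main hs hS hcount

end Pool.Agent.Results.MP_3614fc_al.VirtuallyAbelian
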